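import Pool.Agent.H7.HZ.Stmts

/-!
# Board `hz12`, row BLE: Bonferroni for triangles in a multipartite graph

Ordered triples with elements in three different parts; missing pairs.
-/

set_option autoImplicit false

open Finset

namespace Pool.HZ7

open Pool.Agent.H23.KT Pool.Agent.H46.KW Pool.KQ Pool.GT7 Pool.GU7

/-! ### Abstract part -/

theorem ble_swap23 {α : Type} (T : Finset α) (f : α → α → α → ℝ) :
    ∑ p ∈ T, ∑ q ∈ T, ∑ r ∈ T, f p r q = ∑ p ∈ T, ∑ q ∈ T, ∑ r ∈ T, f p q r :=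
  sum_congr rfl fun _ _ => sum_comm

theorem ble_swap12 {α : Type} (T : Finset α) (f : α → α → α → ℝ) :
    ∑ p ∈ T, ∑ q ∈ T, ∑ r ∈ T, f q p r = ∑ p ∈ T, ∑ q ∈ T, ∑ r ∈ T, f p q r :=
  sum_comm

theorem ble_abs {α : Type} (T : Finset α) (a d m e : α → α → ℝ)
    (h : ∀ p ∈ T, ∀ q ∈ T, ∀ r ∈ T, a p q * a p r * a q r ≤ d p q * d p r * d q r -
      m p q * (d p r * d q r) - m p r * (d p q * d r q) - m q r * (d q p * d r p) +
      m p q * m p r * e q r + m q p * m q r * e p r + m r p * m r q * e p q) :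
    ∑ p ∈ T, ∑ q ∈ T, ∑ r ∈ T, a p q * a p r * a q r ≤
      ∑ p ∈ T, ∑ q ∈ T, ∑ r ∈ T, d p q * d p r * d q r -
      3 * ∑ p ∈ T, ∑ q ∈ T, ∑ r ∈ T, m p q * (d p r * d q r) +
      3 * ∑ p ∈ T, ∑ q ∈ T, ∑ r ∈ T, m p q * m p r * e q r := by
  have h1 : ∑ p ∈ T, ∑ q ∈ T, ∑ r ∈ T, a p q * a p r * a q r ≤
      ∑ p ∈ T, ∑ q ∈ T, ∑ r ∈ T, (d p q * d p r * d q r -
      m p q * (d p r * d q r) - m p r * (d p q * d r q) - m q r * (d q p * d r p) +
      m p q * m p r * e q r + m q p * m q r * e p r + m r p * m r q * e p q) :=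
    sum_le_sum fun p hp => sum_le_sum fun q hq => sum_le_sum fun r hr => h p hp q hq r hr
  simp only [sum_add_distrib, sum_sub_distrib] at h1
  have h2 := ble_swap23 T (fun p q r => m p q * (d p r * d q r))
  have h3 : ∑ p ∈ T, ∑ q ∈ T, ∑ r ∈ T, m q r * (d q p * d r p) =
      ∑ p ∈ T, ∑ q ∈ T, ∑ r ∈ T, m p q * (d p r * d q r) :=
    (ble_swap12 T (fun p q r => m p r * (d p q * d r q))).trans h2
  have h4 := ble_swap12 T (fun p q r => m p q * m p r * e q r)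
  have h5 : ∑ p ∈ T, ∑ q ∈ T, ∑ r ∈ T, m r p * m r q * e p q =
      ∑ p ∈ T, ∑ q ∈ T, ∑ r ∈ T, m p q * m p r * e q r :=
    (ble_swap23 T (fun p q r => m q p * m q r * e p r)).trans h4
  linarith

theorem ble_pt (a1 a2 a3 d1 d2 d3 m1 m2 m3 e1 e2 e3 : ℝ)
    (h1 : (d1 = 0 ∧ m1 = 0 ∧ a1 = 0 ∧ 0 ≤ e1) ∨ (d1 = 1 ∧ m1 = 1 ∧ a1 = 0 ∧ e1 = 1) ∨
      (d1 = 1 ∧ m1 = 0 ∧ a1 = 1 ∧ e1 = 1))
    (h2 : (d2 = 0 ∧ m2 = 0 ∧ a2 = 0 ∧ 0 ≤ e2) ∨ (d2 = 1 ∧ m2 = 1 ∧ a2 = 0 ∧ e2 = 1) ∨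
      (d2 = 1 ∧ m2 = 0 ∧ a2 = 1 ∧ e2 = 1))
    (h3 : (d3 = 0 ∧ m3 = 0 ∧ a3 = 0 ∧ 0 ≤ e3) ∨ (d3 = 1 ∧ m3 = 1 ∧ a3 = 0 ∧ e3 = 1) ∨
      (d3 = 1 ∧ m3 = 0 ∧ a3 = 1 ∧ e3 = 1)) :
    a1 * a2 * a3 ≤ d1 * d2 * d3 - m1 * (d2 * d3) - m2 * (d1 * d3) - m3 * (d1 * d2) +
      m1 * m2 * e3 + m1 * m3 * e2 + m2 * m3 * e1 := by
  rcases h1 with ⟨rfl, rfl, rfl, h1⟩ | ⟨rfl, rfl, rfl, rfl⟩ | ⟨rfl, rfl, rfl, rfl⟩ <;>
    rcases h2 with ⟨rfl, rfl, rfl, h2⟩ | ⟨rfl, rfl, rfl, rfl⟩ | ⟨rfl, rfl, rfl, rfl⟩ <;>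
    rcases h3 with ⟨rfl, rfl, rfl, h3⟩ | ⟨rfl, rfl, rfl, rfl⟩ | ⟨rfl, rfl, rfl, rfl⟩ <;>
    linarith

/-! ### Elementary symmetric functions and power sums -/

theorem ble_mul (a : ℕ) (Q : Polynomial ℕ) (k : ℕ) :
    ((1 + Polynomial.C a * Polynomial.X) * Q).coeff (k + 1) = Q.coeff (k + 1) + a * Q.coeff k := by
  rw [add_mul, one_mul, Polynomial.coeff_add, mul_assoc, Polynomial.coeff_C_mul,
    Polynomial.coeff_X_mul]

theorem ble_es_succ {b : ℕ} (n : Fin (b + 1) → ℕ) (k : ℕ) :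
    es n (k + 1) = es (fun i : Fin b => n i.succ) (k + 1) +
      n 0 * es (fun i : Fin b => n i.succ) k := by
  unfold es
  rw [Fin.prod_univ_succ, ble_mul]

theorem ble_es_zero {b : ℕ} (n : Fin b → ℕ) : es n 0 = 1 := by
  unfold es
  rw [Polynomial.coeff_zero_prod]
  simp

theorem ble_ps : ∀ {b : ℕ} (n : Fin b → ℕ),
    (es n 1 : ℝ) = ∑ i, (n i : ℝ) ∧
    2 * (es n 2 : ℝ) = (∑ i, (n i : ℝ)) ^ 2 - ∑ i, (n i : ℝ) ^ 2 ∧
    6 * (es n 3 : ℝ) = (∑ i, (n i : ℝ)) ^ 3 - 3 * (∑ i, (n i : ℝ)) * (∑ i, (n i : ℝ) ^ 2) +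
      2 * ∑ i, (n i : ℝ) ^ 3 := by
  intro b
  induction b with
  | zero =>
    intro n
    have h : ∀ k, es n (k + 1) = 0 := by
      intro k
      unfold es
      rw [Fin.prod_univ_zero, Polynomial.coeff_one, if_neg (by omega)]
    refine ⟨?_, ?_, ?_⟩
    · rw [h 0]; simp
    · rw [h 1]; simp
    · rw [h 2]; simp
  | succ b ih =>
    intro n
    obtain ⟨h1, h2, h3⟩ := ih (fun i : Fin b => n i.succ)
    have e1 := ble_es_succ n 0
    have e2 := ble_es_succ n 1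
    have e3 := ble_es_succ n 2
    rw [ble_es_zero] at e1
    have f1 : (es n 1 : ℝ) = (es (fun i : Fin b => n i.succ) 1 : ℝ) + n 0 := by
      have : es n 1 = es (fun i : Fin b => n i.succ) 1 + n 0 * 1 := e1
      rw [this]; push_cast; ring
    have f2 : (es n 2 : ℝ) = (es (fun i : Fin b => n i.succ) 2 : ℝ) +
        n 0 * (es (fun i : Fin b => n i.succ) 1 : ℝ) := by
      have : es n 2 = es (fun i : Fin b => n i.succ) 2 + n 0 * es (fun i : Fin b => n i.succ) 1 :=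
        e2
      rw [this]; push_cast; ring
    have f3 : (es n 3 : ℝ) = (es (fun i : Fin b => n i.succ) 3 : ℝ) +
        n 0 * (es (fun i : Fin b => n i.succ) 2 : ℝ) := by
      have : es n 3 = es (fun i : Fin b => n i.succ) 3 + n 0 * es (fun i : Fin b => n i.succ) 2 :=
        e3
      rw [this]; push_cast; ring
    rw [Fin.sum_univ_succ (fun i => (n i : ℝ)), Fin.sum_univ_succ (fun i => (n i : ℝ) ^ 2),
      Fin.sum_univ_succ (fun i => (n i : ℝ) ^ 3)]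
    refine ⟨?_, ?_, ?_⟩
    · rw [f1]; linarith
    · rw [f2]; linear_combination h2 + 2 * (n 0 : ℝ) * h1
    · rw [f3]; linear_combination h3 + 3 * (n 0 : ℝ) * h2

/-! ### Triangles as triple sums -/

open Classical in
noncomputable def bleA {V : Type} (G : SimpleGraph V) (x y : V) : ℝ := if G.Adj x y then 1 else 0

theorem ble_nb {V : Type} (G : SimpleGraph V) (W : Finset V) (x : V) (f : V → ℝ) :
    ∑ y ∈ nb G W x, f y = ∑ y ∈ W, bleA G x y * f y := by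
  classical
  unfold nb
  rw [sum_filter]
  refine sum_congr rfl fun y _ => ?_
  unfold bleA
  split_ifs <;> simp

theorem ble_nbc {V : Type} (G : SimpleGraph V) (W : Finset V) (x : V) :
    ((nb G W x).card : ℝ) = ∑ y ∈ W, bleA G x y := by
  have h := ble_nb G W x (fun _ => 1)
  rw [sum_const, nsmul_eq_mul, mul_one] at h
  rw [h]
  refine sum_congr rfl fun y _ => ?_
  rw [mul_one]

theorem ble_kc {V : Type} [DecidableEq V] (G : SimpleGraph V) (W : Finset V) :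
    (6 : ℝ) * kc G W 3 ≤ ∑ x ∈ W, ∑ y ∈ W, ∑ z ∈ W, bleA G x y * bleA G x z * bleA G y z := by
  have h1 : ∀ U : Finset V, 2 * (kc G U 2 : ℝ) ≤ ∑ y ∈ U, ((nb G U y).card : ℝ) := by
    intro U
    have h := kc_sum G U 1
    have h0 : ∑ y ∈ U, kc G (nb G U y) 1 ≤ ∑ y ∈ U, (nb G U y).card :=
      sum_le_sum fun y _ => kc_one (G := G) (nb G U y)
    rw [h] at h0
    have h' : (((1 + 1) * kc G U (1 + 1) : ℕ) : ℝ) ≤ ((∑ y ∈ U, (nb G U y).card : ℕ) : ℝ) := by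
      exact_mod_cast h0
    push_cast at h'
    linarith
  have h2 : 3 * (kc G W 3 : ℝ) = ∑ x ∈ W, (kc G (nb G W x) 2 : ℝ) := by
    have h := kc_sum G W 2
    have h' : ((∑ x ∈ W, kc G (nb G W x) 2 : ℕ) : ℝ) = (((2 + 1) * kc G W (2 + 1) : ℕ) : ℝ) := by
      exact_mod_cast h
    push_cast at h'
    linarith
  have h3 : (6 : ℝ) * kc G W 3 = ∑ x ∈ W, 2 * (kc G (nb G W x) 2 : ℝ) := by
    rw [← mul_sum, ← h2]
    ring
  rw [h3]
  refine sum_le_sum fun x _ => ?_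
  refine (h1 (nb G W x)).trans (le_of_eq ?_)
  rw [ble_nb]
  refine sum_congr rfl fun y _ => ?_
  rw [ble_nbc, ble_nb, mul_sum]
  refine sum_congr rfl fun z _ => ?_
  ring

/-! ### The parts -/

/-- The vertices with their parts. -/
def bleT {V : Type} {b : ℕ} (Q : Fin b → Finset V) : Finset (Σ _ : Fin b, V) := univ.sigma Q

theorem ble_T {V : Type} {b : ℕ} (Q : Fin b → Finset V) (f : (Σ _ : Fin b, V) → ℝ) :
    ∑ p ∈ bleT Q, f p = ∑ i, ∑ x ∈ Q i, f ⟨i, x⟩ := by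
  unfold bleT
  rw [sum_sigma]

theorem ble_un {V : Type} [DecidableEq V] {G : SimpleGraph V} {b : ℕ} {Q : Fin b → Finset V}
    (hQ : Par G Q) (f : V → ℝ) : ∑ x ∈ un Q, f x = ∑ p ∈ bleT Q, f p.2 := by
  rw [ble_T]
  unfold un
  rw [sum_biUnion]
  intro i _ j _ hij
  exact hQ.dis i j hij

/-- Different parts. -/
noncomputable def bleD {V : Type} {b : ℕ} (p q : Σ _ : Fin b, V) : ℝ := if p.1 = q.1 then 0 else 1

open Classical in
/-- Missing pair. -/
noncomputable def bleM {V : Type} (G : SimpleGraph V) {b : ℕ} (p q : Σ _ : Fin b, V) : ℝ :=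
  if p.1 ≠ q.1 ∧ ¬ G.Adj p.2 q.2 then 1 else 0

open Classical in
noncomputable def bleE {V : Type} {b : ℕ} (p q : Σ _ : Fin b, V) : ℝ := if p = q then 0 else 1

theorem ble_three {V : Type} {G : SimpleGraph V} {b : ℕ} {Q : Fin b → Finset V}
    (hQ : Par G Q) (p q : Σ _ : Fin b, V) (hp : p ∈ bleT Q) (hq : q ∈ bleT Q) :
    (bleD p q = 0 ∧ bleM G p q = 0 ∧ bleA G p.2 q.2 = 0 ∧ 0 ≤ bleE p q) ∨
    (bleD p q = 1 ∧ bleM G p q = 1 ∧ bleA G p.2 q.2 = 0 ∧ bleE p q = 1) ∨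
    (bleD p q = 1 ∧ bleM G p q = 0 ∧ bleA G p.2 q.2 = 1 ∧ bleE p q = 1) := by
  classical
  have hp' : p.2 ∈ Q p.1 := (mem_sigma.1 hp).2
  have hq' : q.2 ∈ Q q.1 := (mem_sigma.1 hq).2
  unfold bleD bleM bleA bleE
  by_cases h : p.1 = q.1
  · left
    have h1 : ¬ G.Adj p.2 q.2 := hQ.ind p.1 p.2 hp' q.2 (by rw [h]; exact hq')
    refine ⟨if_pos h, if_neg (fun h' => h'.1 h), if_neg h1, ?_⟩
    split_ifs <;> norm_num
  · right
    have h2 : p ≠ q := fun h' => h (by rw [h'])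
    by_cases h1 : G.Adj p.2 q.2
    · right
      exact ⟨if_neg h, if_neg (fun h' => h'.2 h1), if_pos h1, if_neg h2⟩
    · left
      exact ⟨if_neg h, if_pos ⟨h, h1⟩, if_neg h1, if_neg h2⟩

theorem ble_Dsymm {V : Type} {b : ℕ} (p q : Σ _ : Fin b, V) : bleD p q = bleD q p := by
  unfold bleD
  by_cases h : p.1 = q.1
  · rw [if_pos h, if_pos h.symm]
  · rw [if_neg h, if_neg (fun h' => h h'.symm)]

theorem ble_Msymm {V : Type} (G : SimpleGraph V) {b : ℕ} (p q : Σ _ : Fin b, V) :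
    bleM G p q = bleM G q p := by
  classical
  unfold bleM
  have h : (p.1 ≠ q.1 ∧ ¬ G.Adj p.2 q.2) ↔ (q.1 ≠ p.1 ∧ ¬ G.Adj q.2 p.2) := by
    rw [ne_comm, G.adj_comm]
  by_cases h1 : p.1 ≠ q.1 ∧ ¬ G.Adj p.2 q.2
  · rw [if_pos h1, if_pos (h.1 h1)]
  · rw [if_neg h1, if_neg (fun h2 => h1 (h.2 h2))]

/-- Sum over a third vertex in a third part. -/
theorem ble_third {V : Type} {b : ℕ} (Q : Fin b → Finset V) (p q : Σ _ : Fin b, V)
    (h : p.1 ≠ q.1) : ∑ r ∈ bleT Q, bleD p r * bleD q r =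
      ∑ i, ((Q i).card : ℝ) - (Q p.1).card - (Q q.1).card := by
  rw [ble_T]
  have h1 : ∀ i : Fin b, ∑ x ∈ Q i, bleD p ⟨i, x⟩ * bleD q ⟨i, x⟩ =
      ((Q i).card : ℝ) - (if p.1 = i then ((Q i).card : ℝ) else 0) -
        (if q.1 = i then ((Q i).card : ℝ) else 0) := by
    intro i
    by_cases h2 : p.1 = i
    · have h3 : q.1 ≠ i := fun h' => h (h2.trans h'.symm)
      have h4 : ∀ x ∈ Q i, bleD p ⟨i, x⟩ * bleD q ⟨i, x⟩ = 0 := by
        intro x _
        have h5 : bleD p ⟨i, x⟩ = 0 := if_pos h2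
        rw [h5, zero_mul]
      rw [sum_eq_zero h4, if_pos h2, if_neg h3]
      ring
    · rw [if_neg h2]
      by_cases h3 : q.1 = i
      · have h4 : ∀ x ∈ Q i, bleD p ⟨i, x⟩ * bleD q ⟨i, x⟩ = 0 := by
          intro x _
          have h5 : bleD q ⟨i, x⟩ = 0 := if_pos h3
          rw [h5, mul_zero]
        rw [sum_eq_zero h4, if_pos h3]
        ring
      · have h4 : ∀ x ∈ Q i, bleD p ⟨i, x⟩ * bleD q ⟨i, x⟩ = 1 := by
          intro x _
          have h5 : bleD p ⟨i, x⟩ = 1 := if_neg h2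
          have h6 : bleD q ⟨i, x⟩ = 1 := if_neg h3
          rw [h5, h6, mul_one]
        rw [sum_congr rfl h4, if_neg h3, sum_const, nsmul_eq_mul]
        ring
  rw [sum_congr rfl (fun i _ => h1 i), sum_sub_distrib, sum_sub_distrib, sum_ite_eq,
    sum_ite_eq, if_pos (mem_univ _), if_pos (mem_univ _)]

/-- The number of missing pairs at a vertex. -/
theorem ble_deg {V : Type} (G : SimpleGraph V) {b : ℕ} (Q : Fin b → Finset V) (i : Fin b) (x : V)
    (F : Fin b → ℝ) : ∑ q ∈ bleT Q, bleM G ⟨i, x⟩ q * F q.1 =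
      ∑ k ∈ univ.erase i, ((non G (Q k) x).card : ℝ) * F k := by
  classical
  rw [ble_T, ← filter_ne, sum_filter]
  refine sum_congr rfl fun k _ => ?_
  by_cases h : i = k
  · rw [if_neg (by simpa using h)]
    refine sum_eq_zero fun y _ => ?_
    unfold bleM
    rw [if_neg (fun h' => h'.1 h), zero_mul]
  · rw [if_pos h]
    change ∑ y ∈ Q k, bleM G ⟨i, x⟩ ⟨k, y⟩ * F k = _
    rw [← sum_mul]
    congr 1
    unfold non
    rw [card_filter]
    push_cast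
    refine sum_congr rfl fun y _ => ?_
    unfold bleM
    by_cases h1 : G.Adj x y
    · rw [if_neg (fun h' => h'.2 h1), if_neg (fun h' => h' h1)]
    · rw [if_pos ⟨h, h1⟩, if_pos h1]

theorem ble_thm : BLEStmt := by
  classical
  intro V _ G b Q hQ
  -- triangles
  have h1 : (6 : ℝ) * kc G (un Q) 3 ≤ ∑ p ∈ bleT Q, ∑ q ∈ bleT Q, ∑ r ∈ bleT Q,
      bleA G p.2 q.2 * bleA G p.2 r.2 * bleA G q.2 r.2 := by
    refine (ble_kc G (un Q)).trans (le_of_eq ?_)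
    rw [ble_un hQ]
    refine sum_congr rfl fun p _ => ?_
    rw [ble_un hQ]
    refine sum_congr rfl fun q _ => ?_
    rw [ble_un hQ]
  have h2 := ble_abs (bleT Q) (fun p q => bleA G p.2 q.2) bleD (bleM G) bleE (by
    intro p hp q hq r hr
    have h := ble_pt _ _ _ _ _ _ _ _ _ _ _ _ (ble_three hQ p q hp hq) (ble_three hQ p r hp hr)
      (ble_three hQ q r hq hr)
    rw [ble_Dsymm r q, ble_Dsymm q p, ble_Dsymm r p, ble_Msymm G q p, ble_Msymm G r p,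
      ble_Msymm G r q]
    exact h)
  replace h2 := h1.trans h2
  -- third vertex
  have hS : ((un Q).card : ℝ) = ∑ i, ((Q i).card : ℝ) := by
    have h := ble_un hQ (fun _ => 1)
    rw [ble_T] at h
    simpa using h
  -- the first order term
  have h3 : ∑ p ∈ bleT Q, ∑ q ∈ bleT Q, ∑ r ∈ bleT Q, bleM G p q * (bleD p r * bleD q r) =
      ∑ j, ∑ k ∈ univ.erase j, ∑ u ∈ Q j, ((non G (Q k) u).card : ℝ) *
        (((un Q).card : ℝ) - (Q j).card - (Q k).card) := by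
    rw [ble_T]
    refine sum_congr rfl fun j _ => ?_
    rw [sum_comm (s := univ.erase j)]
    refine sum_congr rfl fun u _ => ?_
    rw [← ble_deg G Q j u (fun k => ((un Q).card : ℝ) - (Q j).card - (Q k).card)]
    refine sum_congr rfl fun q _ => ?_
    rw [← mul_sum]
    by_cases h : j = q.1
    · have h4 : bleM G (⟨j, u⟩ : Σ _ : Fin b, V) q = 0 := by
        unfold bleM
        rw [if_neg (fun h' => h'.1 h)]
      rw [h4, zero_mul, zero_mul]
    · rw [ble_third Q ⟨j, u⟩ q h, hS]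
  -- the second order term
  have h4 : ∑ p ∈ bleT Q, ∑ q ∈ bleT Q, ∑ r ∈ bleT Q, bleM G p q * bleM G p r * bleE q r =
      ∑ j, ∑ u ∈ Q j, ((∑ k ∈ univ.erase j, (non G (Q k) u).card : ℕ) : ℝ) *
        (((∑ k ∈ univ.erase j, (non G (Q k) u).card : ℕ) : ℝ) - 1) := by
    rw [ble_T]
    refine sum_congr rfl fun j _ => sum_congr rfl fun u _ => ?_
    have h5 : ∑ q ∈ bleT Q, bleM G (⟨j, u⟩ : Σ _ : Fin b, V) q =
        ((∑ k ∈ univ.erase j, (non G (Q k) u).card : ℕ) : ℝ) := by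
      have h := ble_deg G Q j u (fun _ => 1)
      simp only [mul_one] at h
      rw [h]
      push_cast
      rfl
    rw [← h5]
    have h6 : ∀ q ∈ bleT Q, ∑ r ∈ bleT Q, bleM G (⟨j, u⟩ : Σ _ : Fin b, V) q *
        bleM G ⟨j, u⟩ r * bleE q r = bleM G (⟨j, u⟩ : Σ _ : Fin b, V) q *
          (∑ r ∈ bleT Q, bleM G (⟨j, u⟩ : Σ _ : Fin b, V) r) -
          bleM G (⟨j, u⟩ : Σ _ : Fin b, V) q := by
      intro q hq
      have h7 : ∀ r, bleM G (⟨j, u⟩ : Σ _ : Fin b, V) q * bleM G ⟨j, u⟩ r * bleE q r =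
          bleM G (⟨j, u⟩ : Σ _ : Fin b, V) q * bleM G ⟨j, u⟩ r -
            (if q = r then bleM G (⟨j, u⟩ : Σ _ : Fin b, V) r else 0) := by
        intro r
        unfold bleE
        by_cases h8 : q = r
        · subst h8
          rw [if_pos rfl, if_pos rfl]
          unfold bleM
          split_ifs <;> norm_num
        · rw [if_neg h8, if_neg h8]
          ring
      rw [sum_congr rfl (fun r _ => h7 r), sum_sub_distrib, sum_ite_eq, if_pos hq, ← mul_sum]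
    rw [sum_congr rfl h6, sum_sub_distrib, ← sum_mul]
    ring
  -- the main term
  have h5 : ∑ p ∈ bleT Q, ∑ q ∈ bleT Q, ∑ r ∈ bleT Q, bleD p q * bleD p r * bleD q r =
      6 * (es (sz Q) 3 : ℝ) := by
    have h6 : ∀ p ∈ bleT Q, ∑ q ∈ bleT Q, ∑ r ∈ bleT Q, bleD p q * bleD p r * bleD q r =
        (fun i : Fin b => (∑ l, ((Q l).card : ℝ)) ^ 2 - ∑ l, ((Q l).card : ℝ) ^ 2 -
          2 * (Q i).card * (∑ l, ((Q l).card : ℝ)) + 2 * ((Q i).card : ℝ) ^ 2) p.1 := by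
      intro p _
      have h7 : ∀ q ∈ bleT Q, ∑ r ∈ bleT Q, bleD p q * bleD p r * bleD q r =
          (fun k : Fin b => (∑ l, ((Q l).card : ℝ) - (Q p.1).card - (Q k).card) -
            (if p.1 = k then (∑ l, ((Q l).card : ℝ) - (Q p.1).card - (Q k).card) else 0)) q.1 := by
        intro q _
        have h8 : ∑ r ∈ bleT Q, bleD p q * bleD p r * bleD q r =
            bleD p q * ∑ r ∈ bleT Q, bleD p r * bleD q r := by
          rw [mul_sum]
          refine sum_congr rfl fun r _ => ?_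
          ring
        rw [h8]
        simp only
        by_cases h9 : p.1 = q.1
        · rw [if_pos h9]
          unfold bleD
          rw [if_pos h9]
          ring
        · rw [if_neg h9, ble_third Q p q h9]
          unfold bleD
          rw [if_neg h9]
          ring
      rw [sum_congr rfl h7, ble_T]
      simp only [sum_const, nsmul_eq_mul]
      have h10 : ∀ k : Fin b, ((Q k).card : ℝ) * ((∑ l, ((Q l).card : ℝ) - (Q p.1).card -
          (Q k).card) - (if p.1 = k then (∑ l, ((Q l).card : ℝ) - (Q p.1).card - (Q k).card)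
            else 0)) = ((Q k).card : ℝ) * (∑ l, ((Q l).card : ℝ) - (Q p.1).card) -
            ((Q k).card : ℝ) ^ 2 -
            (if p.1 = k then ((Q k).card : ℝ) * (∑ l, ((Q l).card : ℝ) - (Q p.1).card -
              (Q k).card) else 0) := by
        intro k
        split_ifs <;> ring
      rw [sum_congr rfl (fun k _ => h10 k), sum_sub_distrib, sum_sub_distrib, sum_ite_eq,
        if_pos (mem_univ _), ← sum_mul]
      ring
    rw [sum_congr rfl h6, ble_T]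
    simp only [sum_const, nsmul_eq_mul]
    obtain ⟨_, _, h7⟩ := ble_ps (sz Q)
    rw [h7]
    have h8 : ∀ i : Fin b, ((Q i).card : ℝ) * ((∑ l, ((Q l).card : ℝ)) ^ 2 -
        ∑ l, ((Q l).card : ℝ) ^ 2 - 2 * (Q i).card * (∑ l, ((Q l).card : ℝ)) +
        2 * ((Q i).card : ℝ) ^ 2) = ((Q i).card : ℝ) * ((∑ l, ((Q l).card : ℝ)) ^ 2 -
        ∑ l, ((Q l).card : ℝ) ^ 2) - ((Q i).card : ℝ) ^ 2 * (2 * (∑ l, ((Q l).card : ℝ))) +
        ((Q i).card : ℝ) ^ 3 * 2 := by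
      intro i
      ring
    rw [sum_congr rfl (fun i _ => h8 i), sum_add_distrib, sum_sub_distrib, ← sum_mul, ← sum_mul,
      ← sum_mul]
    unfold sz
    ring
  rw [h3, h4, h5] at h2
  linarith

end Pool.HZ7
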