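import Pool.Agent.H7.HZ.Stmts

/-!
# Board `hz12`, row GRE: greedy choice of a transversal clique
-/

set_option autoImplicit false

open Finset

namespace Pool.HZ7

open Pool.Agent.H23.KT Pool.Agent.H46.KW Pool.KQ Pool.GT7 Pool.GU7

theorem gre_aux {V : Type} [DecidableEq V] [Nonempty V] (G : SimpleGraph V) (b : ℕ) (x : ℝ)
    (hx : 0 ≤ x) (J : Finset (Fin b)) : ∀ B : Fin b → Finset V,
    (∀ j ∈ J, ∀ u ∈ B j, ∀ k ∈ J, k ≠ j → ((non G (B k) u).card : ℝ) ≤ x) →
    (∀ j ∈ J, (J.card : ℝ) * x < ((B j).card : ℝ)) →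
    ∃ y : Fin b → V, (∀ j ∈ J, y j ∈ B j) ∧ (∀ j ∈ J, ∀ k ∈ J, j ≠ k → G.Adj (y j) (y k)) := by
  classical
  induction J using Finset.induction_on with
  | empty =>
    intro B _ _
    exact ⟨fun _ => Classical.arbitrary V, fun j hj => absurd hj (notMem_empty j),
      fun j hj => absurd hj (notMem_empty j)⟩
  | insert k J' hk ih =>
    intro B h1 h2
    have h3 : ((insert k J').card : ℝ) = (J'.card : ℝ) + 1 := by
      rw [card_insert_of_notMem hk]
      push_cast
      ring
    have h4 : 0 < ((B k).card : ℝ) := by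
      have h5 := h2 k (mem_insert_self k J')
      have h6 : 0 ≤ ((insert k J').card : ℝ) * x := by positivity
      linarith
    obtain ⟨u, hu⟩ : (B k).Nonempty := card_pos.1 (by exact_mod_cast h4)
    have hsub : ∀ j, B j \ non G (B j) u ⊆ B j := fun j => sdiff_subset
    obtain ⟨y, hy1, hy2⟩ := ih (fun j => B j \ non G (B j) u) (by
      intro j hj v hv l hl hlj
      have h5 := h1 j (mem_insert_of_mem hj) v (hsub j hv) l (mem_insert_of_mem hl) hlj
      have h6 : (non G (B l \ non G (B l) u) v).card ≤ (non G (B l) v).card := by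
        apply card_le_card
        intro w hw
        unfold non at hw ⊢
        rw [mem_filter] at hw ⊢
        exact ⟨(mem_sdiff.1 hw.1).1, hw.2⟩
      have h7 : ((non G (B l \ non G (B l) u) v).card : ℝ) ≤ (non G (B l) v).card := by
        exact_mod_cast h6
      exact h7.trans h5) (by
      intro j hj
      have hjk : j ≠ k := fun h => hk (h ▸ hj)
      have h5 := h2 j (mem_insert_of_mem hj)
      have h6 := h1 k (mem_insert_self k J') u hu j (mem_insert_of_mem hj) hjk
      have h7 : (non G (B j) u).card + (B j \ non G (B j) u).card = (B j).card := by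
        rw [add_comm]
        apply card_sdiff_add_card_eq_card
        intro w hw
        unfold non at hw
        exact (mem_filter.1 hw).1
      have h8 : ((non G (B j) u).card : ℝ) + ((B j \ non G (B j) u).card : ℝ) = (B j).card := by
        exact_mod_cast h7
      rw [h3] at h5
      change (J'.card : ℝ) * x < ((B j \ non G (B j) u).card : ℝ)
      nlinarith)
    have hadj : ∀ j ∈ J', G.Adj u (y j) := by
      intro j hj
      have h5 := mem_sdiff.1 (hy1 j hj)
      by_contra h6
      apply h5.2
      unfold non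
      rw [mem_filter]
      exact ⟨h5.1, h6⟩
    refine ⟨Function.update y k u, ?_, ?_⟩
    · intro j hj
      by_cases hjk : j = k
      · subst hjk
        rw [Function.update_self]
        exact hu
      · rw [Function.update_of_ne hjk]
        exact hsub j (hy1 j ((mem_insert.1 hj).resolve_left hjk))
    · intro j hj l hl hjl
      by_cases hjk : j = k
      · subst hjk
        have hlj : l ≠ j := fun h => hjl h.symm
        rw [Function.update_self, Function.update_of_ne hlj]
        exact hadj l ((mem_insert.1 hl).resolve_left hlj)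
      · rw [Function.update_of_ne hjk]
        by_cases hlk : l = k
        · subst hlk
          rw [Function.update_self]
          exact (hadj j ((mem_insert.1 hj).resolve_left hjk)).symm
        · rw [Function.update_of_ne hlk]
          exact hy2 j ((mem_insert.1 hj).resolve_left hjk) l
            ((mem_insert.1 hl).resolve_left hlk) hjl

theorem gre_gen {V : Type} [DecidableEq V] (G : SimpleGraph V) (b : ℕ) (B : Fin b → Finset V)
    (J : Finset (Fin b)) (x : ℝ) (hJ : J.Nonempty) (hx : 0 ≤ x)
    (h1 : ∀ j ∈ J, ∀ u ∈ B j, ∀ k ∈ J, k ≠ j → ((non G (B k) u).card : ℝ) ≤ x)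
    (h2 : ∀ j ∈ J, (J.card : ℝ) * x < ((B j).card : ℝ)) :
    ∃ y : Fin b → V, (∀ j ∈ J, y j ∈ B j) ∧ (∀ j ∈ J, ∀ k ∈ J, j ≠ k → G.Adj (y j) (y k)) := by
  obtain ⟨j, hj⟩ := hJ
  have h4 : 0 < ((B j).card : ℝ) := by
    have h5 := h2 j hj
    have h6 : 0 ≤ (J.card : ℝ) * x := by positivity
    linarith
  obtain ⟨u, hu⟩ : (B j).Nonempty := card_pos.1 (by exact_mod_cast h4)
  have : Nonempty V := ⟨u⟩
  exact gre_aux G b x hx J B h1 h2

theorem gre_thm : GREStmt := fun G b B J x hJ hx h1 h2 => gre_gen G b B J x hJ hx h1 h2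

end Pool.HZ7
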